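import Pool.Agent.Q202.Rec.PermClone

/-!
# MP_0c3240_lc : polymorphism clones of reducts of pure equality

**Answer to Q1: yes.**  Let `𝔸` be any relational structure with domain `ℕ` all of whose relations
are first-order definable in `(ℕ, =)` without parameters. Then every clone isomorphism from
`Pol(𝔸)` onto a closed clone on `ℕ` (indeed on any countable set) is a homeomorphism. The same
is proved for every closed clone on `ℕ` which contains all permutations.

Idea of the proof. Let `ξ : C → D` be the isomorphism. The permutations in `C` form `Sym(ℕ)`, and
`ξ` gives a second faithful representation of this group with closed image on a countable set;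
it is a Polish group representation, so (Pettis; point stabilisers are closed under commutation)
every point of the second set has a finite support, and injections act on it through its smallest
support. If `s_N → t` in `C` and `ξ(s_N)` does not agree with `ξ(t)` at a tuple, one passes by a
Ramsey argument on the kernels of `s_N` to a limit operation of `C` which is compared with `t` and
with `s_N` through injections that fix the support of the tuple; this gives a contradiction, so
`ξ` is continuous. The continuity of the inverse is a compactness argument for oligomorphic
groups.
-/

set_option autoImplicit false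

namespace Pool.Agent.Results.MP_0c3240_lc.AutomaticHomeomorphicity

open Q202.Rec FirstOrder.Language

universe u v w

theorem result :
    -- (1) the question: polymorphism clones of structures first-order definable in `(ℕ, =)`
    (∀ (L : FirstOrder.Language.{u, v}) [L.IsRelational] [L.Structure ℕ],
      (∀ (m : ℕ) (R : L.Relations m),
        let _ : FirstOrder.Language.empty.Structure ℕ := FirstOrder.Language.emptyStructure
        (∅ : Set ℕ).Definable FirstOrder.Language.empty
          {x : Fin m → ℕ | Structure.RelMap R x}) →
      IsClosed (Pol L ℕ).carrier ∧ AutoHomeo (Pol L ℕ) ℕ) ∧
    -- (2) closed clones with all permutations, and closed clones on arbitrary countable sets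
    ∀ C : Clone ℕ, IsClosed C.carrier →
      (∀ σ : Equiv.Perm ℕ, (fun v : Fin (0 + 1) → ℕ => σ (v 0)) ∈ C.ops 0) →
      ∀ (Ω' : Type w) [TopologicalSpace Ω'] [DiscreteTopology Ω'] [Countable Ω'],
        AutoHomeo C Ω' :=
  ⟨fun L _ _ hdef => ⟨Pol.isClosed L, autoHomeo_of_perm (Pol.isClosed L) (Pol.perm_mem L hdef) ℕ⟩,
    fun _ hC hS Ω' _ _ _ => autoHomeo_of_perm hC hS Ω'⟩

end Pool.Agent.Results.MP_0c3240_lc.AutomaticHomeomorphicity
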